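import Pool.Agent.Helper66K9.VRC.Hyp

/-!
# Property (VRC) passes to amalgamated free products over virtually cyclic subgroups

Full positive answer to Q1: if `P` and `Q` have property (VRC) and `R ≤ P`, `S ≤ Q` are isomorphic
virtually cyclic subgroups, then the amalgamated free product of `P` and `Q` along `R = S` has
property (VRC).

Idea of the proof. Let `f : P₀ → ℤ`, `f' : Q₀ → ℤ` be homomorphisms on normal subgroups of finite
index with `P₀ ∩ R = ⟨r₀⟩ = Q₀ ∩ S`. Restricted to `R × ℤ`, the `P × ℤ`-set `P ×_{P₀} ℤ` is the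
disjoint union of the sets `R ×_{⟨r₀⟩} ℤ` with weights `w_x = f(x⁻¹ r₀ x)`, where `x` runs over
`R \ P / P₀`; and similarly for `Q` with weights `w'_y`. The disjoint union over `y` of the sets
belonging to `w'_y f`, and the disjoint union over `x` of the sets belonging to `w_x f'`, have the same
weights `w_x w'_y`. So they can be identified, and the amalgamated product acts on this set; the
action commutes with a free action of `ℤ` with finitely many orbits.
-/

set_option autoImplicit false

universe u

namespace Pool.Agent.Results.MP_61a31f_al.AmalgamVRC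

/-- `H` is a virtual retract of `G`: there are a subgroup `K` of finite index in `G` which
contains `H` and a homomorphism `ρ : K → H` whose restriction to `H` is the identity. -/
def VirtualRetract {G : Type u} [Group G] (H : Subgroup G) : Prop :=
  ∃ K : Subgroup G, K.FiniteIndex ∧ H ≤ K ∧
    ∃ ρ : K →* H, ∀ k : K, ∀ hk : (k : G) ∈ H, ρ k = ⟨(k : G), hk⟩

/-- Property (VRC): every cyclic subgroup is a virtual retract. -/
def PropVRC (G : Type u) [Group G] : Prop :=
  ∀ g : G, VirtualRetract (Subgroup.zpowers g)

/-- A group is virtually cyclic if it has a cyclic subgroup of finite index. -/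
def VirtuallyCyclic (G : Type u) [Group G] : Prop :=
  ∃ C : Subgroup G, IsCyclic C ∧ C.FiniteIndex

/-- The amalgamated free product of `P` and `Q` which identifies the subgroups `R` and `S` by the
isomorphism `e`: the quotient of the free product by the normal closure of the elements
`r · e(r)⁻¹`, `r ∈ R`. -/
abbrev Amalgam {P Q : Type u} [Group P] [Group Q] {R : Subgroup P} {S : Subgroup Q}
    (e : R ≃* S) : Type u :=
  Monoid.Coprod P Q ⧸ Subgroup.normalClosure
    {x : Monoid.Coprod P Q | ∃ r : R, x = Monoid.Coprod.inl (r : P) *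
      (Monoid.Coprod.inr (e r : Q))⁻¹}

theorem isAmalgam {P Q : Type u} [Group P] [Group Q] {R : Subgroup P} {S : Subgroup Q}
    (e : R ≃* S) : Pool.Agent.Helper66K9.VRC.IsAmalgam (G := Amalgam e) e
      ((QuotientGroup.mk' _).comp Monoid.Coprod.inl)
      ((QuotientGroup.mk' _).comp Monoid.Coprod.inr) where
  agree r := by
    change ((Monoid.Coprod.inl (r : P) : Monoid.Coprod P Q) : Amalgam e) =
      ((Monoid.Coprod.inr (e r : Q) : Monoid.Coprod P Q) : Amalgam e)
    rw [QuotientGroup.eq, ← Subgroup.inv_mem_iff, mul_inv_rev, inv_inv]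
    have h1 : (Monoid.Coprod.inl (r : P) : Monoid.Coprod P Q) *
        (Monoid.Coprod.inr (e r : Q))⁻¹ ∈ Subgroup.normalClosure
        {x : Monoid.Coprod P Q | ∃ r : R, x = Monoid.Coprod.inl (r : P) *
          (Monoid.Coprod.inr (e r : Q))⁻¹} := Subgroup.subset_normalClosure ⟨r, rfl⟩
    have h2 := Subgroup.normalClosure_normal.conj_mem _ h1
      (Monoid.Coprod.inr (e r : Q) : Monoid.Coprod P Q)⁻¹
    rw [inv_inv, mul_assoc, inv_mul_cancel_right, ← Subgroup.inv_mem_iff, mul_inv_rev,
      inv_inv] at h2
    have h3 := Subgroup.inv_mem _ h2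
    rw [mul_inv_rev, inv_inv] at h3
    exact h3
  gen := by
    rw [eq_top_iff]
    rintro g -
    obtain ⟨x, rfl⟩ := QuotientGroup.mk_surjective g
    induction x using Monoid.Coprod.induction_on with
    | inl m => exact Subgroup.subset_closure (Or.inl ⟨m, rfl⟩)
    | inr n => exact Subgroup.subset_closure (Or.inr ⟨n, rfl⟩)
    | mul x y hx hy => exact Subgroup.mul_mem _ hx hy
  lift W _ a b hab := by
    let θ : Monoid.Coprod P Q →* W := Monoid.Coprod.lift a b
    refine ⟨QuotientGroup.lift _ θ (fun x hx => ?_), fun p => ?_, fun q => ?_⟩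
    · have h1 : Subgroup.normalClosure {x : Monoid.Coprod P Q | ∃ r : R,
          x = Monoid.Coprod.inl (r : P) * (Monoid.Coprod.inr (e r : Q))⁻¹} ≤ θ.ker := by
        apply Subgroup.normalClosure_le_normal
        rintro _ ⟨r, rfl⟩
        change θ _ = 1
        rw [map_mul, map_inv]
        simp only [θ, Monoid.Coprod.lift_apply_inl, Monoid.Coprod.lift_apply_inr]
        rw [hab r, mul_inv_cancel]
      exact h1 hx
    · change θ (Monoid.Coprod.inl p) = a p
      simp [θ]
    · change θ (Monoid.Coprod.inr q) = b q
      simp [θ]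

/-- **Q1.** Let `P` and `Q` be groups with property (VRC), let `R ≤ P` and `S ≤ Q` be isomorphic
virtually cyclic subgroups (in particular, they may be cyclic) and let `e : R ≃ S` be an
isomorphism. Then the amalgamated free product of `P` and `Q` along `e` has property (VRC).
(`S` is virtually cyclic because `R` is.) -/
theorem result : ∀ (P Q : Type u) [Group P] [Group Q] (R : Subgroup P) (S : Subgroup Q)
    (e : R ≃* S), PropVRC P → PropVRC Q → VirtuallyCyclic R → PropVRC (Amalgam e) := by
  rintro P Q _ _ R S e hP hQ ⟨C, hC, hCf⟩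
  obtain ⟨⟨r, hr⟩, hgen⟩ := hC.exists_generator
  have h1 : Subgroup.zpowers r = C := by
    apply le_antisymm
    · rwa [Subgroup.zpowers_le]
    · intro x hx
      obtain ⟨n, hn⟩ := hgen ⟨x, hx⟩
      exact ⟨n, congrArg Subtype.val hn⟩
  have h2 : (Subgroup.zpowers r).FiniteIndex := by rw [h1]; exact hCf
  exact Pool.Agent.Helper66K9.VRC.amalgam_vrc (isAmalgam e) hP hQ r h2

end Pool.Agent.Results.MP_61a31f_al.AmalgamVRC
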